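import Pool.Agent.R942.FJ.Cop

/-!
# Graphs of groups whose edge groups are abelian and inject into rational homology

`C` is any class of groups with the closure properties `ClosedE C`, all of which are known for the
class of the groups that satisfy the A-theoretic Farrell–Jones conjecture with coefficients and finite
wreath products. It is not known whether this class is closed under amalgamated products and HNN
extensions, not even along infinite cyclic groups.

(1) A criterion for multiple HNN extensions. Let `M` be a group in `C` and let `α_i, β_i : B_i → M` be
injective homomorphisms. Suppose that for every finite set `S` of pairs `(i, b)` with `b` in `B_i` there are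
a group `P` in `C`, a homomorphism `f : M → P` and elements `p_i` of `P` such that
`p_i f(α_i b) p_i⁻¹ = f(β_i b)` for `(i, b)` in `S`, and such that for each `i` the restriction of `f ∘ α_i` to
the subgroup of `B_i` generated by these `b` is injective (`LocMh`). Then the multiple HNN extension
`⟨M, t_i | t_i α_i(b) t_i⁻¹ = β_i(b)⟩` is in `C`. The group `P` depends on `S`; no homomorphism of the
extension itself is required.

(2) Graphs of groups. Let all groups `GL_n(ℚ)` be in `C`. Consider a graph of groups with vertex groups
`G_v` in `C`, arbitrary otherwise, and edge groups `B_e`. Suppose that there are homomorphisms `f_v` of the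
groups `G_v` to rational vector spaces whose restrictions to both images of each edge group are
injective. (So the edge groups are torsion-free abelian, of arbitrary rank, and inject into the
rational homology `H_1(G_v; ℚ)`; the converse holds with `V_v = H_1(G_v; ℚ)`.) Then Serre's group of the
graph of groups, generated by the `G_v` and the elements `t_e` with the relations
`t_e a_e(x) t_e⁻¹ = b_e(x)`, is in `C`, and so are its subgroups, in particular the fundamental group of the
graph of groups. The graph may be infinite.

The case of infinite cyclic vertex and edge groups contains all generalized Baumslag–Solitar groups,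
the case of free abelian vertex groups is a theorem of Gandini, Meinert and Rüping.

Outline of the proof. (1) For finitely many stable letters the homomorphism `f` extends to the
multiple HNN extension of `M` along the subgroups generated by the elements `b`, `(i, b)` in `S`, and
is injective on the associated subgroups, so that the theorem on edge-injective splittings
(`MP_8f66f0_al.EdgeInjectiveSplittings`) can be applied repeatedly; the other stable letters generate a
free factor. The multiple HNN extension is the colimit of these groups over the finite sets `S`.
(2) Let `W` be the finite-dimensional span of the images of the elements of `S` in the sum of the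
spaces `V_v`. The isomorphism of `B_e`, restricted to the elements of `S`, induces an isomorphism of two
subspaces of `W`, and so is induced by an automorphism of `W`. The group `P` is the group of the linear
automorphisms of `ℚ × W`, which contains the affine group of `W`.
-/

set_option autoImplicit false

namespace Pool.Agent.Results.MP_59dd5b_al.HomologyInjectiveEdges

open Pool.Agent.Y110.FJ Pool.Agent.R779.FJ Pool.Agent.R942.FJ

theorem result (C : ∀ (G : Type) [Group G], Prop) (hC : ClosedE C) :
    (∀ (M : Type) [Group M] (I : Type) (B : I → Type) [∀ i, Group (B i)] (α β : ∀ i, B i →* M),
      C M → (∀ i, Function.Injective (α i)) → (∀ i, Function.Injective (β i)) →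
      LocMh α β C → C (MH α β)) ∧
    ((∀ n : ℕ, C (Matrix (Fin n) (Fin n) ℚ)ˣ) →
      ∀ (Vt E : Type) (o t : E → Vt) (G : Vt → Type) [∀ v, Group (G v)]
        (B : E → Type) [∀ e, Group (B e)] (a : ∀ e, B e →* G (o e)) (b : ∀ e, B e →* G (t e))
        (V : Vt → Type) [∀ v, AddCommGroup (V v)] [∀ v, Module ℚ (V v)]
        (f : ∀ v, G v →* Multiplicative (V v)), (∀ v, C (G v)) →
        (∀ e, Function.Injective ((f (o e)).comp (a e))) →
        (∀ e, Function.Injective ((f (t e)).comp (b e))) → C (GraphGrp o t a b)) :=
  ⟨fun M _ I B _ α β hM hα hβ h => mh_loc α β hC hM hα hβ h,
    fun hgl Vt E o t G _ B _ a b V _ _ f hG ha hb => graph_ab o t a b hC hgl hG V f ha hb⟩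

end Pool.Agent.Results.MP_59dd5b_al.HomologyInjectiveEdges
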