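import Pool.Agent.R684.FP.Rel

/-!
# All extensions by graph products of finite groups and torsion-free groups

`C` is any class of groups with the closure properties `ClosedE C` which contains the groups `F ⋊ Z` for
all free groups `F` and all automorphisms of `F`. All this is published for the class of groups which
satisfy the Full Farrell–Jones Conjecture.

Let `N` be a normal subgroup of `G` such that `G ⧸ N` is in `C`. Suppose that `N` is the graph product of
subgroups `A v` over a simple graph `Λ` with finite vertex set, and that each `A v` is finite or
torsion-free. Let `T` be the subgroup generated by the infinite vertex groups (it is their graph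
product). If `T ⋊ Z` is in `C` for every automorphism of `T`, then `G` is in `C`. There is no condition on
the action of `G` on `N`.

Examples: graph products of finitely many finite groups (`T = 1`), such as finitely generated
right-angled Coxeter groups; graph products of finitely many finite groups and infinite cyclic
groups, hence all graph products of finitely many finitely generated abelian groups (`T` is a
right-angled Artin group, whose mapping tori satisfy the conjecture by Brück, Kielak and Wu); free
products of such groups.

Outline of the proof.

* Let a group `M E` be generated by a normal free product `M = * B c` and a group `E`, `M ∩ E = 1`, which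
  permutes the factors. Then every finite subgroup is conjugate to a subgroup of `E` or of `B c ⋊ E_c`
  (R684, Len): the set of centres of an orbit in `M`, for the distance given by the number of letters,
  has diameter at most one.
* With the structure theorem for the normal closure of one vertex group (R684, Gpx) it follows that
  every finite subgroup of `N` is conjugate into the product of the finite vertex groups of a clique
  (R684, Fsub). So for every finite `A v` and every `g` in `G` a power `g ^ k`, `k > 0`, maps `A v` to an
  `N`-conjugate of `A v`, and the normal closure `K` of the finite vertex groups in `N` is generated by the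
  elements of finite order of `N`, so that it is normal in `G`.
* `N ⧸ K` is isomorphic to `T`, so `G ⧸ K` is in `C`. From `G ⧸ K` one passes to `G` one vertex at a time,
  as in MP_b6f35e_al.GraphProductExtensions, with the theorem on extensions by free products
  (MP_490288_al.FreeProductExtensions).
-/

set_option autoImplicit false

namespace Pool.Agent.Results.MP_59dd5b_al.MixedGraphProducts

open Pool.Agent.Y110.FJ Pool.Agent.R684.FP

theorem result (C : ∀ (G : Type) [Group G], Prop) (hC : ClosedE C)
    (hF : ∀ (X : Type) (α : MulAut (FreeGroup X)),
      C (FreeGroup X ⋊[zpowersHom (MulAut (FreeGroup X)) α] Multiplicative ℤ))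
    (G : Type) [Group G] (N : Subgroup G) [N.Normal] (hQ : C (G ⧸ N))
    (V : Type) [Finite V] (Λ : SimpleGraph V) (A : V → Subgroup G) (hA : IsGP Λ A N)
    (hfin : ∀ v, Finite (A v) ∨ ∀ a ∈ A v, IsOfFinOrder a → a = 1)
    (hT : ∀ α : MulAut ↥(⨆ v, ⨆ _ : ¬ Finite (A v), A v),
      C (↥(⨆ v, ⨆ _ : ¬ Finite (A v), A v) ⋊[zpowersHom _ α] Multiplicative ℤ)) : C G :=
  mix_ext hC hF hA hQ hfin hT

end Pool.Agent.Results.MP_59dd5b_al.MixedGraphProducts
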