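import Pool.Agent.R630.EQ.Main

/-!
# Groups of piecewise homeomorphisms and their extensions

`C` is any class of groups with the closure properties `ClosedE C`, all of which are known for the
class of the groups that satisfy the fibered Farrell–Jones conjecture in A-theory for all free
`G`-CW-complexes, with finite wreath products.

Let `D` act by homeomorphisms on a Hausdorff space `X` with a base of compact open sets, and let
`full D X` be the group of the permutations of `X` which are locally given by elements of `D` (the
topological full group; no condition on the orbits or on the size of `X`). The space is stratified: it
is built from the empty set by unions of chains and by adding strata `S` which have a sequence of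
`D`-invariant partitions into compact sets open in the rest of the space (the blocks `P n y`), such
that the groups of germs along the blocks are in `C`. For instance

* `S` is an orbit of isolated points of the rest and the blocks are points: scattered spaces;
* `D` acts equicontinuously on a profinite space, e.g. an odometer, or on the space of ends of a
  locally finite rooted forest, and the blocks are the cylinder sets: one stratum.

Then every group `G` with a homomorphism to `full D X` is in `C` if it has a normal subgroup `N` with
`G ⧸ N` in `C` which is mapped injectively to homeomorphisms with compact support.

Outline of the proof. On `X × ℤ` every compact set can be moved off itself by an element of `D × ℤ`.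
So conjugation by `g` on elements supported in a compact open set `W` is conjugation by a product of
two involutions of the full group of `X × ℤ` supported in a compact open set `V`. By the
realization criterion it is enough that these full groups `F(V)` are in `C`. They are treated by
induction along the stratification: the elements of `F(V)` which are given by one element of `D × ℤ`
near each block of level `n` form a group `H n`, and `F(V)` is the union of the `H n`. The group `H n`
permutes the finitely many blocks of level `n` in `V`; the elements of finite products of germ groups
along them are in `C`, and the kernel consists of elements supported in lower strata, to which the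
criterion applies again.
-/

set_option autoImplicit false

namespace Pool.Agent.Results.MP_59dd5b_al.PiecewiseHomeomorphisms

open Pool.Agent.Y110.FJ Pool.Agent.R615.SC Pool.Agent.R630.EQ

/-- `X` has a base of compact open sets. -/
def CompactOpenBase (X : Type) [TopologicalSpace X] : Prop :=
  ∀ (y : X) (O : Set X), IsOpen O → y ∈ O → ∃ W, IsOpen W ∧ IsCompact W ∧ y ∈ W ∧ W ⊆ O

/-- Let `C` be a class of groups with the closure properties `ClosedE C`, and let `D` act by
homeomorphisms on the Hausdorff space `X`.
(1) Let `X` have a base of compact open sets and be stratified (`Filt C D univ`). Let `G` be a group,
`j` a homomorphism from `G` to the group `full D X` of piecewise homeomorphisms, `N` a normal subgroup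
of `G` with `G ⧸ N` in `C`, such that `j` is injective on `N` and every `j n`, `n ∈ N`, is the
identity outside a compact set. Then `G` is in `C`.
(2) The assumptions on `X` in (1) hold if `X` has a sequence `P` of finer and finer `D`-invariant
partitions into compact open sets which form a base of the topology and the groups of germs along
all `P n y` are in `C`.
(3) They hold if `X` is locally compact and scattered and all groups of germs at points of `X` are in
`C`. -/
theorem result {C : ∀ (G : Type) [Group G], Prop} (hC : ClosedE C)
    (D X : Type) [Group D] [MulAction D X] [TopologicalSpace X] [T2Space X]
    [ContinuousConstSMul D X] :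
    (CompactOpenBase X → Filt C D (Set.univ : Set X) →
      ∀ (G : Type) [Group G] (j : G →* Equiv.Perm X), (∀ g, j g ∈ full D X) →
        ∀ (N : Subgroup G) [N.Normal], C (G ⧸ N) → (∀ n ∈ N, j n = 1 → n = 1) →
          (∀ n ∈ N, ∃ K : Set X, IsCompact K ∧ ∀ x ∉ K, j n x = x) → C G) ∧
    (∀ P : ℕ → X → Set X, Blocks D Set.univ Set.univ P → (∀ n y, C (GermS D (P n y))) →
      CompactOpenBase X ∧ Filt C D (Set.univ : Set X)) ∧
    (LocallyCompactSpace X → Scattered X → (∀ x : X, C (Germ D x)) →
      CompactOpenBase X ∧ Filt C D (Set.univ : Set X)) := by
  refine ⟨?_, ?_, ?_⟩
  · intro hB hF G _ j hj N _ hQ hinj hcs
    exact main hC hB hF j hj N hQ hinj hcs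
  · intro P hP hg
    refine ⟨fun y O hO hy => ?_, ?_⟩
    · obtain ⟨n, hn⟩ := hP.gen y trivial O hO hy
      obtain ⟨O', h1, h2⟩ := hP.opn n y trivial
      rw [Set.inter_univ] at h2
      exact ⟨P n y, h2 ▸ h1, hP.cpt n y trivial, hP.mem n y trivial, hn⟩
    · have h0 : Filt C D (∅ : Set X) := by
        have h1 : Filt C D (⋃₀ (∅ : Set (Set X))) :=
          Filt.chain ∅ (fun _ h => absurd h (Set.notMem_empty _)) Set.subsingleton_empty.isChain
        rwa [Set.sUnion_empty] at h1
      have h2 : Blocks D Set.univ (∅ : Set X)ᶜ P := by
        rw [Set.compl_empty]
        exact hP
      have h3 := Filt.step ∅ Set.univ P h0 h2 (fun n y _ => hg n y)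
      rwa [Set.union_univ] at h3
  · intro hX hS hg
    exact ⟨fun y O hO hy => basis_co hS y O hO hy, scat hC hS hg⟩

end Pool.Agent.Results.MP_59dd5b_al.PiecewiseHomeomorphisms
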