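import Pool.Agent.R665.She.Prod

/-!
# The A-theoretic Farrell–Jones conjecture for Shephard groups

`C` is any class of groups with the closure properties `ClosedE C` that contains the Coxeter groups of
finite rank. The class of the groups that satisfy the A-theoretic Farrell–Jones conjecture with
coefficients and finite wreath products is such a class (Enkelmann, Lück, Pieper, Ullmann and Winges;
Coxeter groups of finite rank are `CAT(0)` groups). It is not known whether it is closed under
amalgamated products.

Let `M` be a Coxeter matrix over any set `V`, finite or infinite (the entry `0` stands for the label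
infinity), and let `p v`, for `v` in `V`, be even numbers (`0` stands for infinity) with `p v = p w` if
the label of `v` and `w` is odd. The Shephard group `Shephard M p` is the quotient of the Artin group of
`M` by the relations `v ^ p v = 1`. Coxeter groups (`p = 2`), Artin groups (`p = 0`), graph products of
cyclic groups of even or infinite order, and many finite and infinite complex reflection groups are
Shephard groups. (The condition on odd labels is no restriction, as the generators at the ends of an odd
label are conjugate.)

(1) `Shephard M p` is in `C` if and only if its parabolic subgroups of finite rank which are irreducible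
and without label infinity are in `C`.

(2) If every three generators without label infinity have two labels `2`, then `Shephard M p` is in `C`,
unconditionally. Here the parabolic subgroups with two generators can be infinite: central extensions
of spherical, Euclidean and hyperbolic triangle groups.

(3) If `Shephard M p` is in `C`, `N ≅ Shephard M p` is a normal subgroup of a group `G` such that
`G ⧸ N` is in `C`, and every element of `G` acts on `N` by a permutation of `V` which preserves the labels
and the orders, composed with an inner automorphism, then `G` is in `C`. The extension need not split, and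
`V` can be infinite.

(4) If `V` is finite and the parabolic subgroup of a subset `T` of `V` is in `C`, then there is a
homomorphism of `Shephard M p` to a group in `C` which is injective on this parabolic subgroup.

The case `p = 0` of (1), (3) and (4) is `MP_9d1ffa_al.ArtinGroups`, with the word irreducible omitted. For
Artin groups, FC type is known (Huang and Osajda). Some Shephard groups are `CAT(0)` groups (Goldman); the
groups in (1), (2) and (3) are not known to be.

Outline of the proof. As for Artin groups, a word over `V` moves along the cosets of the parabolic
subgroup `W_T` of the Coxeter group `W` and writes a word over `T`. At a coset a power `v ^ p v` writes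
either nothing or `t ^ p v` with a generator `t` in `T` conjugate to `v` in `W`; as is seen from the
characters of `W`, `p t = p v`. So there is a homomorphism of `Shephard M p` to the group of the functions
with finitely many values `W / W_T → Shephard T`, extended by `W`; this is (4). A label infinity gives an
amalgamated product, and (1) follows from the theorem on edge-injective splittings
(`MP_8f66f0_al.EdgeInjectiveSplittings`) and from the decomposition into direct products; (3) from the
extension of partial automorphisms of finite labelled graphs (`R779.FJ.eppaC`). For two generators `x` and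
`y`, let `D` be their Shephard group and let `W'` be the Coxeter group of the triangle with the orders
`(p x, p y, k)`, if the label is `2 k`, and `(p x, 2, 2 k + 1)`, if the label is `2 k + 1`. There are
homomorphisms `D → W' → Aut D`, where the second one uses the automorphism that inverts `x` and `y`, with
composition `D → Inn D`. So the kernel of `D → W'` is central, and `D` is in `C`.
-/

set_option autoImplicit false

namespace Pool.Agent.Results.MP_59dd5b_al.ShephardGroups

open Pool.Agent.Helper741 Pool.Agent.Y110.FJ

/-- the Shephard group of `M` with the orders `p` (`0` stands for infinity) -/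
abbrev Shephard {V : Type} (M : CoxeterMatrix V) (p : V → ℕ) : Type :=
  Artin M ⧸ Subgroup.normalClosure (Set.range fun v => Artin.gen M v ^ p v)

/-- the generators -/
def gen {V : Type} (M : CoxeterMatrix V) (p : V → ℕ) (v : V) : Shephard M p :=
  QuotientGroup.mk' _ (Artin.gen M v)

/-- the standard parabolic subgroup of `T` -/
def par {V : Type} (M : CoxeterMatrix V) (p : V → ℕ) (T : Set V) : Subgroup (Shephard M p) :=
  Subgroup.closure (gen M p '' T)

/-- there is no label infinity between the elements of `T` -/
def InfFree {V : Type} (M : CoxeterMatrix V) (T : Set V) : Prop := ∀ i ∈ T, ∀ j ∈ T, M i j ≠ 0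

/-- `T` has no partition into two nonempty sets with all labels between them equal to `2` -/
def Irreducible {V : Type} (M : CoxeterMatrix V) (T : Set V) : Prop :=
  ∀ X ⊆ T, X.Nonempty → (T \ X).Nonempty → ∃ i ∈ X, ∃ j ∈ T \ X, M i j ≠ 2

/-- every three generators without label infinity have two labels `2` -/
def LocallyReducible {V : Type} (M : CoxeterMatrix V) : Prop :=
  ∀ i j k : V, i ≠ j → j ≠ k → i ≠ k → M i j ≠ 0 → M j k ≠ 0 → M i k ≠ 0 → M i j = 2 ∨ M j k = 2

/-- `G` acts on its normal subgroup `N ≅ Shephard M p` by permutations of the generators which preserve
the labels and the orders, composed with inner automorphisms of `N` -/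
def ActsByGraph {V : Type} (M : CoxeterMatrix V) (p : V → ℕ) {G : Type} [Group G] (N : Subgroup G)
    (e : Shephard M p ≃* N) : Prop :=
  ∀ g : G, ∃ (τ : Equiv.Perm V) (n : G), n ∈ N ∧ (∀ v w, M (τ v) (τ w) = M v w) ∧
    (∀ v, p (τ v) = p v) ∧
    ∀ v : V, g * (e (gen M p v) : G) * g⁻¹ = n * (e (gen M p (τ v)) : G) * n⁻¹

/-- **Shephard groups** -/
theorem result (C : ∀ (G : Type) [Group G], Prop) (hC : ClosedE C)
    (hW : ∀ (B : Type) [Finite B] (M : CoxeterMatrix B), C M.Group)
    (V : Type) (M : CoxeterMatrix V) (p : V → ℕ) (hp : ∀ v, Even (p v))
    (ho : ∀ v w, Odd (M v w) → p v = p w) :
    (C (Shephard M p) ↔ ∀ T : Finset V, InfFree M (T : Set V) → Irreducible M (T : Set V) →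
      C ↥(par M p (T : Set V))) ∧
    (LocallyReducible M → C (Shephard M p)) ∧
    (∀ (G : Type) [Group G] (N : Subgroup G) [N.Normal] (e : Shephard M p ≃* N), C N →
      C (G ⧸ N) → ActsByGraph M p N e → C G) ∧
    (Finite V → ∀ T : Set V, C ↥(par M p T) →
      ∃ (P : Type) (_ : Group P) (f : Shephard M p →* P), C P ∧
        ∀ k ∈ par M p T, f k = 1 → k = 1) := by
  have hg : Pool.Agent.R665.She.Good M p := ⟨hp, ho⟩
  refine ⟨⟨?_, ?_⟩, ?_, ?_, ?_⟩
  · intro h T _ _
    exact hC.base.of_injective _ _ (Subgroup.subtype _) Subtype.val_injective h
  · intro h
    exact Pool.Agent.R665.She.she_irr hC hW M p hg fun T hT hI =>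
      (Pool.Agent.R665.She.C_par M p hC.base hg _).1 (h T hT hI)
  · intro hL
    exact Pool.Agent.R665.She.she_loc hC hW M p hg hL
  · intro G _ N _ e hN hQ hact
    have h1 : C (Shephard M p) := hC.base.of_injective _ _ e.toMonoidHom e.injective hN
    refine Pool.Agent.R665.She.she_ext hC hW M p hg (fun T hT => ?_) G N e hQ hact
    exact (Pool.Agent.R665.She.C_par M p hC.base hg _).1
      ((Pool.Agent.R665.She.she_iff M p hC hW hg).1 h1 T hT)
  · intro hV T hT
    exact Pool.Agent.R665.She.exists_hom M p hC hW hg T hT

end Pool.Agent.Results.MP_59dd5b_al.ShephardGroups
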